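import Mathlib

/-!
# Conjecture A at the prime 3 and elliptic curves: the statements

`K` is a number field and `Kb` an algebraic closure. The absolute Galois group is
`AlgebraicClosure K ≃ₐ[K] AlgebraicClosure K`, the points of an elliptic curve `W` over `Kb` are
`(Affine.baseChange W (AlgebraicClosure K)).Point`. A Galois module is given by a set `B` in an
abelian group and an action `ρ` (for a module `M` of its own: `B` is all of `M`).
-/

open WeierstrassCurve
open scoped Classical NumberField

universe u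

namespace Pool.Agent.Helper96.P4

section

variable {G : Type*} [Group G] {M : Type*} [AddCommGroup M]

/-- `H²(G/N, B) = 0` by continuous cochains, for a module `B` over `G` on which the closed normal
subgroup `N` acts trivially; the cochains of `G/N` are the cochains of `G` which are invariant under
`N` in each variable. -/
def H2Zero [TopologicalSpace G] (N : Subgroup G) (ρ : G → M → M) (B : Set M) : Prop :=
  ∀ f : G → G → M, (∀ g h, f g h ∈ B) → IsLocallyConstant (fun x : G × G => f x.1 x.2) →
    (∀ g h n m : G, n ∈ N → m ∈ N → f (g * n) (h * m) = f g h) →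
    (∀ g h k : G, ρ g (f h k) - f (g * h) k + f g (h * k) - f g h = 0) →
    ∃ u : G → M, (∀ g, u g ∈ B) ∧ IsLocallyConstant u ∧
      (∀ g n : G, n ∈ N → u (g * n) = u g) ∧ ∀ g h : G, f g h = ρ g (u h) - u (g * h) + u g

/-- The group `F_3(χ)` of order 3 on which `G` acts by `χ : G → {1, -1}`. -/
def chRep (χ : G → ℤˣ) (g : G) (x : ZMod 3) : ZMod 3 := (χ g : ℤ) • x

/-- `M` is a module over `G`, killed by 3 and continuous for the discrete topology, with a submodule
`N` such that `N` is `F_3(χ)` and `M / N` is `F_3(ψ)`: they have order 3, `g` acts on `N` by `χ g` and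
on `M / N` by `ψ g`. -/
structure IsExt [TopologicalSpace G] (ρ : G → M → M) (N : AddSubgroup M) (χ ψ : G → ℤˣ) :
    Prop where
  one : ∀ x, ρ 1 x = x
  mul : ∀ g h x, ρ (g * h) x = ρ g (ρ h x)
  add : ∀ g x y, ρ g (x + y) = ρ g x + ρ g y
  three : ∀ x : M, 3 • x = 0
  cont : ∀ x, IsOpen {g | ρ g x = x}
  sub : Nat.card N = 3 ∧ ∀ g, ∀ x ∈ N, ρ g x = (χ g : ℤ) • x
  quo : N.index = 3 ∧ ∀ g x, ρ g x - (ψ g : ℤ) • x ∈ N

/-- `M` has a submodule isomorphic to `F_3(χ)`. -/
def HasLine (ρ : G → M → M) (χ : G → ℤˣ) : Prop :=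
  ∃ T : AddSubgroup M, Nat.card T = 3 ∧ ∀ g, ∀ x ∈ T, ρ g x = (χ g : ℤ) • x

/-- The elements killed by 3. -/
def tor3 (M : Type*) [AddCommGroup M] : Set M := {x | 3 • x = 0}

/-- `E'` is isogenous to `E` over `K`: there is a surjective homomorphism `φ : E(F) → E'(F)` with
finite kernel that commutes with the actions of `G` on `E(F)` and on `E'(F)` and is given, outside a
finite set, by rational functions of the coordinates with coefficients in `K`. -/
def IsIsog {F : Type*} [Field F] (K : Type*) [Field K] [Algebra K F] (E E' : Affine F)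
    (ρ : G → E.Point → E.Point) (ρ' : G → E'.Point → E'.Point) : Prop :=
  ∃ φ : E.Point →+ E'.Point,
    Function.Surjective φ ∧ Finite φ.ker ∧ (∀ g P, φ (ρ g P) = ρ' g (φ P)) ∧
    ∃ (A B C D : MvPolynomial (Fin 2) K) (s : Set E.Point), s.Finite ∧
      ∀ (x y : F) (h : E.Nonsingular x y), Affine.Point.some x y h ∉ s →
        MvPolynomial.aeval ![x, y] B ≠ 0 ∧ MvPolynomial.aeval ![x, y] D ≠ 0 ∧
        ∃ h', φ (Affine.Point.some x y h) = Affine.Point.some
          (MvPolynomial.aeval ![x, y] A / MvPolynomial.aeval ![x, y] B)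
          (MvPolynomial.aeval ![x, y] C / MvPolynomial.aeval ![x, y] D) h'

end

section

variable {K : Type*} [Field K]

/-- The Galois group of `Kb / K_cyc`, where `K_cyc` is the cyclotomic `ℤ_3`-extension of `K`: the
elements whose image under the 3-adic cyclotomic character is `1` or `-1`. -/
noncomputable def Gcyc (K : Type*) [Field K] : Subgroup (AlgebraicClosure K ≃ₐ[K] AlgebraicClosure K) :=
  ((powMonoidHom (3 - 1)).comp ((cyclotomicCharacter (AlgebraicClosure K) 3).comp
    (MulSemiringAction.toRingAut (AlgebraicClosure K ≃ₐ[K] AlgebraicClosure K)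
      (AlgebraicClosure K)))).ker

/-- The inertia group in `Gal(Kb/K)` of a prime `P` of the ring of integers of `Kb`. -/
noncomputable def inert (P : Ideal (𝓞 (AlgebraicClosure K))) :
    Subgroup (AlgebraicClosure K ≃ₐ[K] AlgebraicClosure K) :=
  P.toAddSubgroup.inertia (AlgebraicClosure K ≃ₐ[K] AlgebraicClosure K)

/-- The Galois group `Gal(Kb/K_S)`, where `K_S` is the maximal extension of `K_cyc` unramified
outside `S`: the closed subgroup of `Gal(Kb/K_cyc)` generated by the inertia groups at the primes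
which do not lie over `S`. -/
noncomputable def NS (S : Set (Ideal (𝓞 K))) :
    Subgroup (AlgebraicClosure K ≃ₐ[K] AlgebraicClosure K) :=
  Subgroup.topologicalClosure
    (⨆ P : {P : Ideal (𝓞 (AlgebraicClosure K)) // P.IsPrime ∧ P ≠ ⊥ ∧ P.under (𝓞 K) ∉ S},
      inert P.1 ⊓ Gcyc K)

/-- Conjecture `A(K, B)` for the prime 3: `H²(G_S(K_cyc), B) = 0` for every finite set `S` of primes
of `K` that contains the primes above 3 and the primes at which `B` is ramified. -/
def ConjA {M : Type*} [AddCommGroup M]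
    (ρ : (AlgebraicClosure K ≃ₐ[K] AlgebraicClosure K) → M → M) (B : Set M) : Prop :=
  ∀ S : Set (Ideal (𝓞 K)), S.Finite →
    (∀ P : Ideal (𝓞 (AlgebraicClosure K)), P.IsPrime → P ≠ ⊥ → P.under (𝓞 K) ∉ S →
      3 ∉ P ∧ ∀ g ∈ inert P, ∀ x ∈ B, ρ g x = x) →
    H2Zero ((NS S).subgroupOf (Gcyc K)) (fun g => ρ g) B

/-- The Galois action on the points of `W` over the algebraic closure. -/
noncomputable def act (W : WeierstrassCurve K) (g : AlgebraicClosure K ≃ₐ[K] AlgebraicClosure K)
    (P : (Affine.baseChange W (AlgebraicClosure K)).Point) :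
    (Affine.baseChange W (AlgebraicClosure K)).Point :=
  Affine.Point.map (W' := W) (g : AlgebraicClosure K →ₐ[K] AlgebraicClosure K) P

/-- `W` and `W'` are isogenous over `K`. -/
def Isogenous (W W' : WeierstrassCurve K) : Prop :=
  IsIsog K (Affine.baseChange W (AlgebraicClosure K)) (Affine.baseChange W' (AlgebraicClosure K))
    (act W) (act W')

/-- Conjecture `A(K, W[3])`. -/
def A3 (W : WeierstrassCurve K) : Prop := ConjA (act W) (tor3 _)

/-- Q1 for `p = 3` over `K`. -/
def IsogInv (K : Type*) [Field K] : Prop :=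
  ∀ W W' : WeierstrassCurve K, W.Δ ≠ 0 → W'.Δ ≠ 0 → Isogenous W W' → (A3 W ↔ A3 W')

/-- The cyclotomic character mod 3: it is `1` on the elements that fix the cube roots of unity, and
`-1` on the others. -/
noncomputable def om (g : AlgebraicClosure K ≃ₐ[K] AlgebraicClosure K) : ℤˣ :=
  if ∀ x, x ^ 3 = 1 → g x = x then 1 else -1

end

section

variable (K : Type u) [Field K] (χ : (AlgebraicClosure K ≃ₐ[K] AlgebraicClosure K) → ℤˣ)

variable {K}

/-- The character `χω`. -/
noncomputable def tw (g : AlgebraicClosure K ≃ₐ[K] AlgebraicClosure K) : ℤˣ := χ g * om g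

/-- `W[3]` has a submodule isomorphic to `F_3(χ)` or to `F_3(χω)`. -/
def Has (W : WeierstrassCurve K) : Prop := HasLine (act W) χ ∨ HasLine (act W) (tw χ)

/-- Conjecture A for `F_3(χ)` and for `F_3(χω)`. -/
def ChA : Prop := ConjA (chRep χ) Set.univ ∧ ConjA (chRep (tw χ)) Set.univ

variable (K)

/-- Isogeny invariance for the curves `W` such that `W[3]` contains `F_3(χ)` or `F_3(χω)`. -/
def IsogAt : Prop :=
  ∀ W W' : WeierstrassCurve K, W.Δ ≠ 0 → W'.Δ ≠ 0 → Has χ W → Has χ W' → Isogenous W W' →
    (A3 W ↔ A3 W')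

/-- For the curves `W` such that `W[3]` contains `F_3(χ)` or `F_3(χω)`, Conjecture A for `W[3]`
is equivalent to Conjecture A for `F_3(χ)` and `F_3(χω)`. -/
def SplitAt : Prop := ∀ W : WeierstrassCurve K, W.Δ ≠ 0 → Has χ W → (A3 W ↔ ChA χ)

/-- Conjecture A holds for all or for none of the curves `W` such that `W[3]` contains `F_3(χ)`
or `F_3(χω)`. -/
def ConstAt : Prop :=
  ∀ W W' : WeierstrassCurve K, W.Δ ≠ 0 → W'.Δ ≠ 0 → Has χ W → Has χ W' → (A3 W ↔ A3 W')

/-- For every module `M` killed by 3, continuous for the discrete topology, with a submodule `N` such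
that `N` and `M / N` are `F_3(χ)` and `F_3(χω)`, in either order, Conjecture A for `M` is equivalent
to Conjecture A for `F_3(χ)` and `F_3(χω)`. -/
def ExtAt : Prop :=
  ∀ (M : Type u) [AddCommGroup M] (ρ : (AlgebraicClosure K ≃ₐ[K] AlgebraicClosure K) → M → M)
    (N : AddSubgroup M), IsExt ρ N χ (tw χ) ∨ IsExt ρ N (tw χ) χ → (ConjA ρ Set.univ ↔ ChA χ)

end

end Pool.Agent.Helper96.P4
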