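import Pool.Agent.Helper96.P4.HC
import Pool.Agent.Helper58.IQ.Ext

set_option autoImplicit false

/-!
# Conjecture A at the prime 3: the theorem in the words of this folder
-/

open WeierstrassCurve
open scoped Classical NumberField

universe u

namespace Pool.Agent.Helper96.P4

open Pool.Agent.Helper58

section

variable {G : Type*} [Group G]

theorem iso_card {M : Type*} [AddCommGroup M] {ρ : G →* AddMonoid.End M} {χ : G →* ℤˣ} :
    IQ.Iso ρ (IQ.chRep χ) ↔ Nat.card M = 3 ∧ ∀ g x, ρ g x = (χ g : ℤ) • x := by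
  constructor
  · rintro ⟨e, he⟩
    refine ⟨by rw [Nat.card_congr e.toEquiv, Nat.card_zmod], fun g x => e.injective ?_⟩
    rw [he, map_zsmul]
    rfl
  · rintro ⟨hc, h⟩
    have : Fact (Nat.Prime 3) := ⟨Nat.prime_three⟩
    have : IsAddCyclic M := isAddCyclic_of_prime_card hc
    let e0 : M ≃+ ZMod (Nat.card M) := (zmodAddCyclicAddEquiv inferInstance).symm
    let e : M ≃+ ZMod 3 := e0.trans (ZMod.ringEquivCongr hc).toAddEquiv
    refine ⟨e, fun g x => ?_⟩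
    rw [h, map_zsmul]
    rfl

theorem isExt_of [TopologicalSpace G] {M : Type*} [AddCommGroup M] (ρ : G →* AddMonoid.End M)
    (N : AddSubgroup M) (χ ψ : G →* ℤˣ) (h3 : ∀ x : M, 3 • x = 0)
    (hc : ∀ x : M, IsOpen {g | ρ g x = x}) (hN : ∀ g, ∀ x ∈ N, ρ g x ∈ N)
    (hs : IQ.Iso (IQ.subRep ρ N hN) (IQ.chRep χ)) (hq : IQ.Iso (IQ.quoRep ρ N hN) (IQ.chRep ψ)) :
    IsExt (fun g => ρ g) N χ ψ := by
  obtain ⟨h1, h2⟩ := iso_card.1 hs
  obtain ⟨h4, h5⟩ := iso_card.1 hq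
  refine ⟨fun x => ?_, fun g h x => ?_, fun g x y => map_add (ρ g) x y, h3, hc,
    ⟨h1, fun g x hx => congrArg Subtype.val (h2 g ⟨x, hx⟩)⟩, ⟨h4, fun g x => ?_⟩⟩
  · change ρ 1 x = x
    rw [map_one]
    rfl
  · change ρ (g * h) x = ρ g (ρ h x)
    rw [map_mul]
    rfl
  · have h5 : (QuotientAddGroup.mk (ρ g x) : M ⧸ N) = QuotientAddGroup.mk ((ψ g : ℤ) • x) :=
      h5 g (QuotientAddGroup.mk x)
    have h6 := QuotientAddGroup.eq.1 h5.symm
    rwa [neg_add_eq_sub] at h6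

theorem isExt_to [TopologicalSpace G] {M : Type*} [AddCommGroup M] (a : G → M → M)
    (N : AddSubgroup M) (χ ψ : G →* ℤˣ) (h : IsExt a N χ ψ) :
    ∃ ρ : G →* AddMonoid.End M, (fun g => ⇑(ρ g)) = a ∧ (∀ x : M, 3 • x = 0) ∧
      (∀ x : M, IsOpen {g | ρ g x = x}) ∧ ∃ hN : ∀ g, ∀ x ∈ N, ρ g x ∈ N,
        IQ.Iso (IQ.subRep ρ N hN) (IQ.chRep χ) ∧ IQ.Iso (IQ.quoRep ρ N hN) (IQ.chRep ψ) := by
  let ρ : G →* AddMonoid.End M :=
    { toFun := fun g => AddMonoidHom.mk' (a g) (h.add g)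
      map_one' := AddMonoidHom.ext h.one
      map_mul' := fun g k => AddMonoidHom.ext (h.mul g k) }
  have hN : ∀ g, ∀ x ∈ N, ρ g x ∈ N := by
    intro g x hx
    have h5 : ρ g x = (χ g : ℤ) • x := h.sub.2 g x hx
    rw [h5]
    exact N.zsmul_mem hx _
  refine ⟨ρ, rfl, h.three, h.cont, hN, iso_card.2 ⟨h.sub.1, fun g x => ?_⟩,
    iso_card.2 ⟨h.quo.1, fun g x => ?_⟩⟩
  · exact Subtype.ext (h.sub.2 g x x.2)
  · induction x using QuotientAddGroup.induction_on with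
    | H x =>
      change (QuotientAddGroup.mk (ρ g x) : M ⧸ N) = QuotientAddGroup.mk ((ψ g : ℤ) • x)
      refine (QuotientAddGroup.eq.2 ?_).symm
      rw [neg_add_eq_sub]
      exact h.quo.2 g x

end

section

variable {K : Type*} [Field K] {M : Type*} [AddCommGroup M]

theorem gcyc_eq : Gcyc K = IQ.Gcyc K 3 := rfl

theorem ns_eq (S : Set (Ideal (𝓞 K))) : NS S = IQ.NS K 3 S := rfl

theorem three_mem (P : Ideal (𝓞 (AlgebraicClosure K))) :
    (3 : 𝓞 (AlgebraicClosure K)) ∈ P ↔ ((3 : ℕ) : 𝓞 (AlgebraicClosure K)) ∈ P := by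
  rw [Nat.cast_ofNat]

/-- Conjecture A for a module of its own. -/
theorem conjA_univ (ρ : (AlgebraicClosure K ≃ₐ[K] AlgebraicClosure K) →* AddMonoid.End M) :
    ConjA (fun g => ρ g) (Set.univ : Set M) ↔ IQ.ConjA 3 ρ := by
  constructor
  · rintro h S ⟨hS, hP⟩ f h1 h2 h3
    obtain ⟨u, -, h4⟩ := h S hS (fun P hp h0 hu => ⟨fun h3 => (hP P hp h0 hu).1 ((three_mem P).1 h3),
      fun g hg x _ => by
        change ρ g x = x
        rw [(hP P hp h0 hu).2 g hg]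
        rfl⟩) f (fun _ _ => Set.mem_univ _) h1 h2 h3
    exact ⟨u, h4⟩
  · intro h S hS hP f _ h1 h2 h3
    obtain ⟨u, h4⟩ := h S ⟨hS, fun P hp h0 hu =>
      ⟨fun h3 => (hP P hp h0 hu).1 ((three_mem P).2 h3), fun g hg =>
        AddMonoidHom.ext fun x => (hP P hp h0 hu).2 g hg x (Set.mem_univ _)⟩⟩ f h1 h2 h3
    exact ⟨u, fun _ => Set.mem_univ _, h4⟩

/-- Conjecture A for a stable subgroup. -/
theorem conjA_sub (ρ : (AlgebraicClosure K ≃ₐ[K] AlgebraicClosure K) →* AddMonoid.End M)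
    (H : AddSubgroup M) (hH : ∀ g, ∀ x ∈ H, ρ g x ∈ H) :
    ConjA (fun g => ρ g) (H : Set M) ↔ IQ.ConjA 3 (IQ.subRep ρ H hH) := by
  constructor
  · rintro h S ⟨hS, hP⟩ f h1 h2 h3
    obtain ⟨u, h0, h4, h5, h6⟩ := h S hS (fun P hp h0 hu =>
      ⟨fun h3 => (hP P hp h0 hu).1 ((three_mem P).1 h3), fun g hg x hx =>
        congrArg Subtype.val (DFunLike.congr_fun ((hP P hp h0 hu).2 g hg) (⟨x, hx⟩ : H))⟩)
      (fun g h => (f g h : M)) (fun g h => (f g h).2)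
      (h1.comp (Subtype.val : H → M))
      (fun g h n m hn hm => congrArg Subtype.val (h2 g h n m hn hm))
      (fun g h k => congrArg Subtype.val (h3 g h k))
    refine ⟨fun g => ⟨u g, h0 g⟩, ?_, fun g n hn => Subtype.ext (h5 g n hn),
      fun g h => Subtype.ext (h6 g h)⟩
    exact IsLocallyConstant.desc (fun g => (⟨u g, h0 g⟩ : H)) (Subtype.val : H → M) h4
      Subtype.val_injective
  · intro h S hS hP f hf h1 h2 h3
    obtain ⟨u, h4, h5, h6⟩ := h S ⟨hS, fun P hp h0 hu =>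
      ⟨fun h3 => (hP P hp h0 hu).1 ((three_mem P).2 h3), fun g hg =>
        AddMonoidHom.ext fun x => Subtype.ext ((hP P hp h0 hu).2 g hg x x.2)⟩⟩
      (fun g h => (⟨f g h, hf g h⟩ : H))
      (IsLocallyConstant.desc _ (Subtype.val : H → M) h1 Subtype.val_injective)
      (fun g h n m hn hm => Subtype.ext (h2 g h n m hn hm))
      (fun g h k => Subtype.ext (h3 g h k))
    exact ⟨fun g => (u g : M), fun g => (u g).2, h4.comp (Subtype.val : H → M),
      fun g n hn => congrArg Subtype.val (h5 g n hn), fun g h => congrArg Subtype.val (h6 g h)⟩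

theorem a3_eq (W : WeierstrassCurve K) : A3 W = IQ.ConjA 3 (IQ.torRep W) :=
  propext (conjA_sub (IQ.ptsRep W) (IQ.tor3 W) (IQ.stab_tor3 W))

theorem isog_eq (W W' : WeierstrassCurve K) : Isogenous W W' = IQ.Isogenous W W' :=
  propext ⟨fun ⟨φ, h1, h2, h3, h4⟩ => ⟨φ, h1, h2, h3, h4⟩,
    fun ⟨φ, h1, h2, h3, h4⟩ => ⟨φ, h1, h2, h3, h4⟩⟩

theorem isogInv_eq (K : Type u) [Field K] : IsogInv K = IQ.IsogInv K := by
  simp only [IsogInv, IQ.IsogInv, isog_eq, a3_eq]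

end

section

variable {K : Type u} [Field K] [CharZero K]

/-- The two definitions of the cyclotomic character mod 3. -/
theorem om_eq (g : AlgebraicClosure K ≃ₐ[K] AlgebraicClosure K) : om g = IQ.om K g := by
  have hs : (IQ.sqr (-3 : K)) ^ 2 = -3 := by
    rw [IQ.sqr_sq, map_neg, map_ofNat]
  have h2 : (2 : AlgebraicClosure K) ≠ 0 := two_ne_zero
  have h1 : (∀ x : AlgebraicClosure K, x ^ 3 = 1 → g x = x) ↔
      g (IQ.sqr (-3 : K)) = IQ.sqr (-3 : K) := by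
    constructor
    · intro h
      have h3 := h ((-1 + IQ.sqr (-3 : K)) / 2) (by
        field_simp
        linear_combination (IQ.sqr (-3 : K) - 3) * hs)
      rw [map_div₀, map_add, map_neg, map_one, map_ofNat, div_left_inj' h2] at h3
      exact add_left_cancel h3
    · intro h x hx
      have h3 : (x - 1) * ((2 * x + 1 - IQ.sqr (-3 : K)) * (2 * x + 1 + IQ.sqr (-3 : K))) = 0 := by
        linear_combination 4 * hx - (x - 1) * hs
      rcases mul_eq_zero.1 h3 with h4 | h4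
      · rw [sub_eq_zero.1 h4, map_one]
      · rcases mul_eq_zero.1 h4 with h5 | h5
        · have h6 : x = (IQ.sqr (-3 : K) - 1) / 2 := by
            field_simp
            linear_combination h5
          rw [h6, map_div₀, map_sub, h, map_one, map_ofNat]
        · have h6 : x = (-IQ.sqr (-3 : K) - 1) / 2 := by
            field_simp
            linear_combination h5
          rw [h6, map_div₀, map_sub, map_neg, h, map_one, map_ofNat]
  unfold om
  change _ = (if g (IQ.sqr (-3 : K)) = IQ.sqr (-3 : K) then (1 : ℤˣ) else -1)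
  by_cases h : g (IQ.sqr (-3 : K)) = IQ.sqr (-3 : K)
  · rw [if_pos h, if_pos (h1.2 h)]
  · rw [if_neg h, if_neg (fun h3 => h (h1.1 h3))]

variable (χ : (AlgebraicClosure K ≃ₐ[K] AlgebraicClosure K) →* ℤˣ)

theorem om_fun : tw χ = ⇑(χ * IQ.om K) := by
  funext g
  unfold tw
  rw [om_eq]
  rfl

theorem card_three {A : Type*} [AddCommGroup A] (T : AddSubgroup A) (hT : Nat.card T = 3) {x : A}
    (hx : x ∈ T) : 3 • x = 0 := by
  have h1 : Nat.card T • (⟨x, hx⟩ : T) = 0 := card_nsmul_eq_zero'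
  rw [hT] at h1
  exact congrArg Subtype.val h1

theorem has_eq (W : WeierstrassCurve K) : Has χ W = IQ.Has χ W := by
  apply propext
  have h0 : ∀ (ψ : (AlgebraicClosure K ≃ₐ[K] AlgebraicClosure K) →* ℤˣ)
      (T : AddSubgroup (IQ.Pts W)), Nat.card T = 3 → (∀ g, ∀ P ∈ T, act W g P = (ψ g : ℤ) • P) →
      ∃ hs : IQ.Stab W T, T ≤ IQ.tor3 W ∧ IQ.Iso (IQ.lineRep W T hs) (IQ.chRep ψ) := by
    intro ψ T hT h
    refine ⟨fun g P hP => ?_, fun P hP => card_three T hT hP, iso_card.2 ⟨hT, fun g x =>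
      Subtype.ext (h g x x.2)⟩⟩
    have h1 : IQ.ptsRep W g P = (ψ g : ℤ) • P := h g P hP
    rw [h1]
    exact T.zsmul_mem hP _
  constructor
  · rintro (⟨T, hT, h⟩ | ⟨T, hT, h⟩)
    · obtain ⟨hs, h1, h2⟩ := h0 χ T hT h
      exact ⟨T, hs, h1, Or.inl h2⟩
    · rw [om_fun] at h
      obtain ⟨hs, h1, h2⟩ := h0 (χ * IQ.om K) T hT h
      exact ⟨T, hs, h1, Or.inr h2⟩
  · rintro ⟨T, hs, -, h | h⟩
    · obtain ⟨h1, h2⟩ := iso_card.1 h
      exact Or.inl ⟨T, h1, fun g P hP => congrArg Subtype.val (h2 g ⟨P, hP⟩)⟩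
    · obtain ⟨h1, h2⟩ := iso_card.1 h
      refine Or.inr ⟨T, h1, fun g P hP => ?_⟩
      rw [om_fun]
      exact congrArg Subtype.val (h2 g ⟨P, hP⟩)

omit [CharZero K] in
theorem ch_eq (ψ : (AlgebraicClosure K ≃ₐ[K] AlgebraicClosure K) →* ℤˣ) :
    ConjA (chRep ψ) Set.univ ↔ IQ.ConjA 3 (IQ.chRep ψ) := conjA_univ (IQ.chRep ψ)

theorem chA_eq : ChA χ =
    (IQ.ConjA 3 (IQ.chRep χ) ∧ IQ.ConjA 3 (IQ.chRep (χ * IQ.om K))) := by
  apply propext
  unfold ChA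
  rw [om_fun, ch_eq, ch_eq]

theorem isogAt_eq : IsogAt K χ = IQ.IsogAt K χ := by
  simp only [IsogAt, IQ.IsogAt, isog_eq, a3_eq, has_eq]

theorem splitAt_eq : SplitAt K χ = IQ.SplitAt K χ := by
  simp only [SplitAt, IQ.SplitAt, a3_eq, has_eq, chA_eq]

theorem constAt_eq : ConstAt K χ = IQ.ConstAt K χ := by
  simp only [ConstAt, IQ.ConstAt, a3_eq, has_eq]

theorem extAt_of (h : IQ.ExtAt K χ) : ExtAt K χ := by
  intro M _ a N hN
  rw [chA_eq]
  rw [om_fun] at hN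
  rcases hN with hN | hN
  · obtain ⟨ρ, rfl, h3, hc, hs, h1, h2⟩ := isExt_to a N χ (χ * IQ.om K) hN
    rw [conjA_univ]
    exact h M ρ N hs h3 hc (Or.inl ⟨h1, h2⟩)
  · obtain ⟨ρ, rfl, h3, hc, hs, h1, h2⟩ := isExt_to a N (χ * IQ.om K) χ hN
    rw [conjA_univ]
    exact h M ρ N hs h3 hc (Or.inr ⟨h1, h2⟩)

theorem extAt_to (h : ExtAt K χ) : IQ.ExtAt K χ := by
  intro M _ ρ N hs h3 hc hN
  have h4 := h M (fun g => ρ g) N
  rw [chA_eq, conjA_univ, om_fun] at h4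
  refine h4 ?_
  rcases hN with ⟨h1, h2⟩ | ⟨h1, h2⟩
  · exact Or.inl (isExt_of ρ N χ (χ * IQ.om K) h3 hc hs h1 h2)
  · exact Or.inr (isExt_of ρ N (χ * IQ.om K) χ h3 hc hs h1 h2)

theorem extAt_eq : ExtAt K χ = IQ.ExtAt K χ := propext ⟨extAt_to χ, extAt_of χ⟩

end

theorem main (K : Type u) [Field K] [NumberField K] :
    (∀ χ : (AlgebraicClosure K ≃ₐ[K] AlgebraicClosure K) →* ℤˣ,
      List.TFAE [IsogAt K χ, SplitAt K χ, ConstAt K χ, ExtAt K χ]) ∧
    (IsogInv K ↔ ∀ χ : (AlgebraicClosure K ≃ₐ[K] AlgebraicClosure K) →* ℤˣ, ConstAt K χ) := by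
  simp only [isogInv_eq, isogAt_eq, splitAt_eq, constAt_eq, extAt_eq]
  exact ⟨fun χ => IQ.tfae_at χ, IQ.isogInv_iff⟩

end Pool.Agent.Helper96.P4
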